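import Pool.Agent.Y713.SE.Stm

/-!
# The Tate-Shafarevich group of the Jacobian of a superelliptic curve

The definitions of `Pool.Agent.Y713.Jac`, with a variable separable closure `Ω`; they print in a
shorter form.
-/

set_option autoImplicit false
set_option linter.all false

namespace Pool.Agent.N352.Sha

open Polynomial IsDedekindDomain
open Pool.Agent.Y713.Jac (J mapJ ShaPrimaryTrivial)

section

variable (ℓ : ℕ) {K : Type} [Field K] (f : K[X]) (Ω : Type) [Field Ω] [Algebra K Ω]

/-- The functions on the Galois group of `Ω` over `K` with values in `J(Ω)`, where `J` is the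
Jacobian of `y ^ ℓ = f(x)`. -/
def Cochain : Type := (Ω ≃ₐ[K] Ω) → J ℓ f Ω

variable {Ω}

/-- The action of the Galois group on `J(Ω)`. -/
noncomputable def act (σ : Ω ≃ₐ[K] Ω) (P : J ℓ f Ω) : J ℓ f Ω := mapJ ℓ f σ.toAlgHom P

variable {ℓ f}

/-- Continuous 1-cocycles with values in the discrete group `J(Ω)`. -/
def IsCocycle (c : Cochain ℓ f Ω) : Prop :=
  IsLocallyConstant c ∧ ∀ σ τ : Ω ≃ₐ[K] Ω, c (σ * τ) = c σ * act ℓ f σ (c τ)

/-- Coboundaries. -/
def IsCoboundary (c : Cochain ℓ f Ω) : Prop := ∃ Q, ∀ σ : Ω ≃ₐ[K] Ω, c σ = act ℓ f σ Q / Q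

/-- The cocycle `c ^ n`. -/
noncomputable def Cochain.pow (c : Cochain ℓ f Ω) (n : ℕ) : Cochain ℓ f Ω := fun σ => c σ ^ n

/-- For an embedding `ι : Ω → Ω'` over `K` there is `P ∈ J(Ω')` with `c(τ|Ω) = τ P / P` for every
`τ ∈ Gal(Ω' / E)`. -/
def Splits (c : Cochain ℓ f Ω) (E Ω' : Type) [Field E] [Algebra K E] [Field Ω'] [Algebra E Ω']
    [Algebra K Ω'] [IsScalarTower K E Ω'] : Prop :=
  ∃ (ι : Ω →ₐ[K] Ω') (P : J ℓ f Ω'), ∀ (τ : Ω' ≃ₐ[E] Ω') (σ : Ω ≃ₐ[K] Ω),
    (∀ x, τ (ι x) = ι (σ x)) →
      mapJ ℓ f ι (c σ) = mapJ ℓ f (τ.toAlgHom.restrictScalars K) P / P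

/-- The restriction of the class of the cocycle `c` to `H ^ 1 (E, J)` is zero. -/
def IsZeroOver (c : Cochain ℓ f Ω) (E : Type) [Field E] [Algebra K E] : Prop :=
  Splits c E (SeparableClosure E)

variable (ℓ f Ω)

/-- The `ℓ`-primary part of the group of classes in `H ^ 1 (K, J)` which are zero over the
completions of `K` at all maximal ideals of `R` is zero, where `Ω` is the separable closure of
`K`. -/
def ShaTrivialFor (R : Type) [CommRing R] [IsDedekindDomain R] [Algebra R K]
    [IsFractionRing R K] : Prop :=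
  ∀ (c : Cochain ℓ f Ω) (m : ℕ), IsCocycle c →
    (∀ v : HeightOneSpectrum R, IsZeroOver c (v.adicCompletion K)) →
    IsCoboundary (c.pow (ℓ ^ m)) → IsCoboundary c

/-- The `ℓ`-primary part of the group of classes in `H ^ 1 (K, J)` which are zero over all the fields
in `Pl` is zero, where `Ω` is the separable closure of `K`. -/
def ShaTrivialAtFor (Pl : ∀ (E : Type) [Field E] [Algebra K E], Prop) : Prop :=
  ∀ (c : Cochain ℓ f Ω) (m : ℕ), IsCocycle c →
    (∀ (E : Type) [Field E] [Algebra K E], Pl E → IsZeroOver c E) →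
    IsCoboundary (c.pow (ℓ ^ m)) → IsCoboundary c

end

section

variable (ℓ : ℕ) {K : Type} [Field K] (f : K[X])

/-- The `ℓ`-primary part of the group of classes in `H ^ 1 (K, J)` which are zero over the
completions of `K` at all maximal ideals of `R` is zero. -/
def ShaTrivial (R : Type) [CommRing R] [IsDedekindDomain R] [Algebra R K] [IsFractionRing R K] :
    Prop :=
  ShaTrivialFor ℓ f (SeparableClosure K) R

/-- The `ℓ`-primary part of the group of classes in `H ^ 1 (K, J)` which are zero over all the fields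
in `Pl` is zero. -/
def ShaTrivialAt (Pl : ∀ (E : Type) [Field E] [Algebra K E], Prop) : Prop :=
  ShaTrivialAtFor ℓ f (SeparableClosure K) Pl

theorem sha_iff (R : Type) [CommRing R] [IsDedekindDomain R] [Algebra R K] [IsFractionRing R K] :
    ShaTrivial ℓ f R ↔ ShaPrimaryTrivial ℓ f R := Iff.rfl

/-- The group `G` is uniquely divisible by `ℓ`. -/
def UniquelyDivisible (G : Type) [CommGroup G] : Prop := Function.Bijective fun P : G => P ^ ℓ

end

end Pool.Agent.N352.Sha
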