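import Pool.Agent.Y160.SE.All
import Pool.Agent.Y160.SE.Kum
import Pool.Agent.Y160.SE.LocC
import Pool.Agent.Y713.SE.Stm

/-!
# Project JB: from a trivial explicit 2-Selmer group to the Jacobian

`f` is monic, separable, irreducible of odd degree over a field `K` of characteristic different
from 2. If the 2-Selmer group of the Jacobian `J` of `y ^ 2 = f(x)`, in the explicit form of Cassels
and Schaefer, is trivial, then `J(K)` is uniquely divisible by 2 and the 2-primary part of the group of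
locally trivial classes in `H ^ 1 (K, J)` is zero.

`CR`, `Good`, `Jac`, `jm`, `Rt`, `Tor`, `chi` and the tools (`hyps : Hyps`, `exists_rep`, `fixed_class`,
`kcJ`, `kummerN`, `cob1`, `lam_surj`) are those of `Pool.Agent.Y160.SE`; here always `ℓ = 2`, `ζ = -1`.
-/

set_option autoImplicit false
set_option linter.all false

open Polynomial IsDedekindDomain
open scoped Classical

namespace Pool.Agent.N352.JB

open Pool.Agent.Y160.SE
open Pool.Agent.TH115.GD (incl rs ak)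

/-- The class of `h(θ)`, `f(θ) = 0`, comes from a point of the Jacobian of `y ^ 2 = f(x)` over the
field `F`. -/
def LocIm (F : Type) [Field F] (f h : F[X]) : Prop :=
  ∃ (l : List (F[X] × F[X])) (s : F[X]),
    (∀ p ∈ l, p.1.Monic ∧ IsCoprime p.1 f ∧ p.1 ∣ p.2 ^ 2 - f) ∧
    f ∣ h * (l.map fun p => (-1) ^ p.1.natDegree * p.1).prod - s ^ 2

/-- The explicit 2-Selmer group for the local conditions at the fields in `Pl` is trivial. -/
def SelTriv {K : Type} [Field K] (Pl : ∀ (E : Type) [Field E] [Algebra K E], Prop) (f : K[X]) :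
    Prop :=
  ∀ h : K[X], IsCoprime h f → IsSquare (Algebra.norm K (AdjoinRoot.mk f h)) →
    (∀ (E : Type) [Field E] [Algebra K E], Pl E →
      LocIm E (f.map (algebraMap K E)) (h.map (algebraMap K E))) →
    ∃ s : K[X], f ∣ h - s ^ 2

/-- `h` and the square roots `b(e)` of its values at the roots `e` of `f` describe the class of the
cocycle `c` with values in the points of order 2. -/
structure KumD {K Ω : Type} [Field K] [Field Ω] [Algebra K Ω] {f : K[X]} (hg : Good 2 (-1 : K) f)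
    (c : (Ω ≃ₐ[K] Ω) → Jac 2 f Ω) (h : K[X]) (b : Ω → Ω) : Prop where
  val : ∀ e, Rt f e → b e ≠ 0 ∧ b e ^ 2 = aeval e h
  gal : ∀ (σ : Ω ≃ₐ[K] Ω) (e : Ω), Rt f e → σ (b e) = chi hg (σ e) (c σ) * b (σ e)

/-- Lagrange interpolation and Galois descent. -/
def S_LAG : Prop := ∀ (E Ω : Type) [Field E] [Field Ω] [Algebra E Ω] [IsGalois E Ω]
  [IsSepClosed Ω] (f : E[X]), f.Separable → ∀ γ : Ω → Ω,
  (∀ (τ : Ω ≃ₐ[E] Ω) (e : Ω), Rt f e → τ (γ e) = γ (τ e)) →
  ∃ s : E[X], ∀ e, Rt f e → aeval e s = γ e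

/-- The norm of `h(θ)` as a product over the roots. -/
def S_NRM : Prop := ∀ (K Ω : Type) [Field K] [Field Ω] [Algebra K Ω] (f h : K[X]), f.Monic →
  (f.map (algebraMap K Ω)).Splits →
  algebraMap K Ω (Algebra.norm K (AdjoinRoot.mk f h)) =
    ((f.map (algebraMap K Ω)).roots.map fun e => aeval e h).prod

/-- The norm of `(-1) ^ deg p * p(θ)`, `p ∣ f - c ^ 2`, is a square. -/
def S_LPN : Prop := ∀ (E Ω : Type) [Field E] [Field Ω] [Algebra E Ω] (f : E[X]), f.Monic →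
  Odd f.natDegree → (f.map (algebraMap E Ω)).Splits → ∀ s : Multiset E[X],
  (∀ p ∈ s, p.Monic ∧ ∃ c : E[X], p ∣ f - c ^ 2) →
  ∃ y : E, ((f.map (algebraMap E Ω)).roots.map fun e =>
    aeval e ((s.map fun p => (-1) ^ p.natDegree * p).prod)).prod = algebraMap E Ω (y ^ 2)

/-- The same for the norm `G` of an ideal: the Kummer class `G ^ n / N(G)` is explicit. -/
def S_SQL : Prop := ∀ (E Ω : Type) [Field E] [Field Ω] [Algebra E Ω] (f : E[X]), f.Monic →
  Odd f.natDegree → (f.map (algebraMap E Ω)).Splits → ∀ G : E[X], LP 2 f G →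
  ∃ (l : List (E[X] × E[X])) (s : E[X]),
    (∀ p ∈ l, p.1.Monic ∧ IsCoprime p.1 f ∧ p.1 ∣ p.2 ^ 2 - f) ∧
    ∀ e : Ω, Rt f e → aeval e G ^ f.natDegree *
      aeval e ((l.map fun p => (-1) ^ p.1.natDegree * p.1).prod) =
      aeval e s ^ 2 * ((f.map (algebraMap E Ω)).roots.map fun e' => aeval e' G).prod

/-- The Kummer class of a cocycle with values in the points of order 2. -/
def S_KUM : Prop := ∀ (K Ω : Type) [Field K] [Field Ω] [Algebra K Ω] [IsGalois K Ω]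
  [IsSepClosed Ω] (f : K[X]) (hg : Good 2 (-1 : K) f), Irreducible f →
  ∀ c : (Ω ≃ₐ[K] Ω) → Jac 2 f Ω, IsLocallyConstant c →
  (∀ σ τ, c (σ * τ) = c σ + jm 2 f (ak σ) (c τ)) → (∀ σ, Tor hg (c σ)) →
  ∃ (h : K[X]) (b : Ω → Ω), KumD hg c h b ∧ IsSquare (Algebra.norm K (AdjoinRoot.mk f h))

/-- The local condition: if `c` becomes a coboundary over `E`, then `h(θ)` is in the image of the
Jacobian. -/
def S_LOC : Prop := ∀ (K Ω E Ω' : Type) [Field K] [Field Ω] [Algebra K Ω] [IsGalois K Ω]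
  [IsSepClosed Ω] [Field E] [Algebra K E] [Field Ω'] [Algebra E Ω'] [Algebra K Ω']
  [IsScalarTower K E Ω'] [IsGalois E Ω'] [IsSepClosed Ω'] (f : K[X]) (hg : Good 2 (-1 : K) f)
  (c : (Ω ≃ₐ[K] Ω) → Jac 2 f Ω), (∀ σ, Tor hg (c σ)) → ∀ (h : K[X]) (b : Ω → Ω), KumD hg c h b →
  ∀ (ι : Ω →ₐ[K] Ω') (P : Jac 2 f Ω'),
  (∀ (τ : Ω' ≃ₐ[E] Ω') (σ : Ω ≃ₐ[K] Ω), (∀ x, τ (ι x) = ι (σ x)) →
    jm 2 f ι (c σ) = jm 2 f (rs K τ) P - P) →
  LocIm E (f.map (algebraMap K E)) (h.map (algebraMap K E))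

/-- If `h(θ)` is a square, then the cocycle is a coboundary. -/
def S_COB : Prop := ∀ (K Ω : Type) [Field K] [Field Ω] [Algebra K Ω] [IsGalois K Ω]
  [IsSepClosed Ω] (f : K[X]) (hg : Good 2 (-1 : K) f), Irreducible f →
  ∀ c : (Ω ≃ₐ[K] Ω) → Jac 2 f Ω, (∀ σ τ, c (σ * τ) = c σ + jm 2 f (ak σ) (c τ)) →
  (∀ σ, Tor hg (c σ)) → ∀ (h : K[X]) (b : Ω → Ω), KumD hg c h b →
  ∀ s : K[X], f ∣ h - s ^ 2 → ∃ R : Jac 2 f Ω, Tor hg R ∧ ∀ σ, c σ = jm 2 f (ak σ) R - R

/-- Multiplication by 2 on `J(Ω)`. -/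
def S_DBL : Prop := ∀ (K Ω : Type) [Field K] [Field Ω] [Algebra K Ω] (f : K[X])
  (hg : Good 2 (-1 : K) f),
  (∀ x : Jac 2 f Ω, Tor hg x ↔ 2 • x = 0) ∧
  (∀ x : Jac 2 f Ω, pe hg Ω (1 - X) x = 2 • x) ∧
  ([IsSepClosed Ω] → ∀ x : Jac 2 f Ω, ∃ y, 2 • y = x)

/-- The action of the Galois group on a class is locally constant. -/
def S_LC : Prop := ∀ (K Ω : Type) [Field K] [Field Ω] [Algebra K Ω] [IsGalois K Ω] (f : K[X])
  (hg : Good 2 (-1 : K) f) (x : Jac 2 f Ω),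
  IsLocallyConstant fun σ : Ω ≃ₐ[K] Ω => jm 2 f (ak σ) x

/-- `J(K)` is a subgroup of `J(Ω)`. -/
def S_INJ : Prop := ∀ (K Ω : Type) [Field K] [Field Ω] [Algebra K Ω] [IsGalois K Ω] (f : K[X])
  (hg : Good 2 (-1 : K) f), Function.Injective (jm 2 f (incl K K Ω) : Jac 2 f K → Jac 2 f Ω)

/-- A Galois-invariant class killed by 2 is zero if `f` is irreducible. -/
def S_TOR : Prop := ∀ (K Ω : Type) [Field K] [Field Ω] [Algebra K Ω] [IsGalois K Ω]
  [IsSepClosed Ω] (f : K[X]) (hg : Good 2 (-1 : K) f), Irreducible f → ∀ x : Jac 2 f Ω,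
  Tor hg x → (∀ σ : Ω ≃ₐ[K] Ω, jm 2 f (ak σ) x = x) → x = 0

/-- The 2-primary part of the group of locally trivial classes is zero. -/
def S_SHA : Prop := ∀ (K : Type) [Field K] (f : K[X]), (2 : K) ≠ 0 → f.Monic → Irreducible f →
  f.Separable → Odd f.natDegree → ∀ (Pl : ∀ (E : Type) [Field E] [Algebra K E], Prop),
  SelTriv Pl f → ∀ (c : Pool.Agent.Y713.Jac.Cochain 2 f) (m : ℕ),
  Pool.Agent.Y713.Jac.IsCocycle 2 f c →
  (∀ (E : Type) [Field E] [Algebra K E], Pl E → Pool.Agent.Y713.Jac.IsTrivialOver 2 f E c) →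
  Pool.Agent.Y713.Jac.IsCoboundary 2 f (fun σ => c σ ^ 2 ^ m) →
  Pool.Agent.Y713.Jac.IsCoboundary 2 f c

/-- `J(K)` is uniquely divisible by 2. -/
def S_PTS : Prop := ∀ (K : Type) [Field K] (f : K[X]), (2 : K) ≠ 0 → f.Monic → Irreducible f →
  f.Separable → Odd f.natDegree → ∀ (Pl : ∀ (E : Type) [Field E] [Algebra K E], Prop),
  SelTriv Pl f → Function.Bijective fun P : Pool.Agent.Y713.Jac.J 2 f K => P ^ 2

end Pool.Agent.N352.JB
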