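import Pool.Agent.N352.JB.Fin
import Pool.Agent.N352.JB.ShaDef
import Pool.Agent.N615.JB.Alg
import Pool.Agent.N615.JB.Cob
import Pool.Agent.N615.JB.Lc
import Pool.Agent.N27.JB.Lpn
import Pool.Agent.N424.JB.Pts
import Pool.Agent.N655.JB.Inj
import Pool.Agent.N106.JB.Sha
import Pool.Agent.N232.JB.KUM

/-!
# Assembly of project JB
-/

set_option autoImplicit false
set_option linter.all false

open Polynomial IsDedekindDomain
open scoped Classical

namespace Pool.Agent.N352.JB

open Pool.Agent.Y713.Jac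

theorem sqlT : S_SQL := Pool.Agent.N27.JB.Lpn.sql Pool.Agent.N27.JB.Lpn.lpn

/-- The 2-primary part of the group of locally trivial classes is zero. -/
theorem shaT : S_SHA :=
  Pool.Agent.N106.JB.sha (Pool.Agent.N232.JB.kum Pool.Agent.N615.JB.lag Pool.Agent.N615.JB.nrm)
    (Pool.Agent.N424.JB.loc Pool.Agent.N615.JB.lag sqlT) Pool.Agent.N615.JB.cob
    Pool.Agent.N615.JB.dbl Pool.Agent.N615.JB.lc

/-- `J(K)` is uniquely divisible by 2. -/
theorem ptsT : S_PTS :=
  Pool.Agent.N424.JB.pts Pool.Agent.N615.JB.nrm sqlT Pool.Agent.N615.JB.cob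
    Pool.Agent.N615.JB.dbl Pool.Agent.N655.JB.inj Pool.Agent.N615.JB.tor

open Pool.Agent.N352.Sha in
/-- The general form over a field `K` with any set `Pl` of extension fields. -/
theorem gen {K : Type} [Field K] {f : K[X]} (h2 : (2 : K) ≠ 0) (hm : f.Monic)
    (hi : Irreducible f) (hs : f.Separable) (ho : Odd f.natDegree)
    {Pl : ∀ (E : Type) [Field E] [Algebra K E], Prop} (h : SelTriv Pl f) :
    UniquelyDivisible 2 (J 2 f K) ∧ ShaTrivialAt 2 f Pl :=
  ⟨ptsT K f h2 hm hi hs ho Pl h, fun c m hc hl hb => shaT K f h2 hm hi hs ho Pl h c m hc hl hb⟩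

theorem fin {k K : Type} [Field k] [Field K] [Algebra k[X] K]
    [IsFractionRing k[X] K] (h2 : (2 : K) ≠ 0) {f : k[X][X]} (hm : f.Monic)
    (hi : Irreducible (f.map (algebraMap k[X] K))) (hs : (f.map (algebraMap k[X] K)).Separable)
    (ho : Odd f.natDegree) (h : Pool.Agent.N352.PJ.SelZero K f) :
    (Function.Bijective fun P : J 2 (f.map (algebraMap k[X] K)) K => P ^ 2) ∧
      ShaPrimaryTrivial 2 (f.map (algebraMap k[X] K)) k[X] :=
  fin_of shaT ptsT h2 hm hi hs ho h

end Pool.Agent.N352.JB
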