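import Pool.Agent.N352.JB.Def
import Pool.Agent.N352.PJ.Loc

/-!
# Project JB: the consequence for project PJ
-/

set_option autoImplicit false
set_option linter.all false

open Polynomial IsDedekindDomain
open scoped Classical

namespace Pool.Agent.N352.JB

open Pool.Agent.Y713.Jac

/-- The completions of `K = Frac R` at the maximal ideals of `R`. -/
inductive PlR (R K : Type) [CommRing R] [IsDedekindDomain R] [Field K] [Algebra R K]
    [IsFractionRing R K] : ∀ (E : Type) [Field E] [Algebra K E], Prop
  | mk (v : HeightOneSpectrum R) : PlR R K (v.adicCompletion K)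

theorem selTriv_of {k K : Type} [Field k] [Field K] [Algebra k[X] K] [IsFractionRing k[X] K]
    {f : k[X][X]} (h : Pool.Agent.N352.PJ.SelZero K f) :
    SelTriv (PlR k[X] K) (f.map (algebraMap k[X] K)) := by
  intro a h1 h2 h3
  refine h a h1 h2 fun v => ?_
  have h4 := h3 (v.adicCompletion K) (PlR.mk v)
  unfold LocIm at h4
  rw [Polynomial.map_map] at h4
  exact h4

theorem fin_of (hS : S_SHA) (hP : S_PTS) {k K : Type} [Field k] [Field K] [Algebra k[X] K]
    [IsFractionRing k[X] K] (h2 : (2 : K) ≠ 0) {f : k[X][X]} (hm : f.Monic)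
    (hi : Irreducible (f.map (algebraMap k[X] K))) (hs : (f.map (algebraMap k[X] K)).Separable)
    (ho : Odd f.natDegree) (h : Pool.Agent.N352.PJ.SelZero K f) :
    (Function.Bijective fun P : J 2 (f.map (algebraMap k[X] K)) K => P ^ 2) ∧
      ShaPrimaryTrivial 2 (f.map (algebraMap k[X] K)) k[X] := by
  have hF : (f.map (algebraMap k[X] K)).Monic := hm.map _
  have hd : Odd (f.map (algebraMap k[X] K)).natDegree := by
    rw [hm.natDegree_map]
    exact ho
  have ht := selTriv_of h
  refine ⟨hP K _ h2 hF hi hs hd _ ht, fun c m hc hl hb => ?_⟩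
  refine hS K _ h2 hF hi hs hd _ ht c m hc (fun E _ _ hE => ?_) hb
  cases hE with
  | mk v => exact hl v

end Pool.Agent.N352.JB
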